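import Pool.Agent.J6H7.IC.EW

/-!
# Splitting a lattice point of the unit cube of a simplicial cone
-/

set_option autoImplicit false

namespace Pool.Agent.J6H7.IC

open Finset

theorem descent {n : ℕ} (hn : 3 ≤ n) (G : AddSubgroup (Fin n → ℝ))
    (hZ : ∀ a : Fin n → ℤ, (fun i => (a i : ℝ)) ∈ G) (D : ℕ) (hD : 0 < D)
    (hGD : ∀ a ∈ G, ∀ i, ∃ z : ℤ, (D : ℝ) * a i = z) (l : Fin n → ℝ)
    (hl : ∀ i, (n : ℝ) - 1 ≤ l i) (f : Fin n → ℝ) (hf : f ∈ G) (hf0 : ∀ i, 0 ≤ f i)
    (hf1 : ∀ i, f i < 1) :
    ∃ g ∈ G, (∀ i, 0 ≤ g i) ∧ (∀ i, g i ≤ f i) ∧ ∑ i, f i / l i - 1 ≤ ∑ i, g i / l i ∧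
      ∑ i, g i / l i ≤ 1 := by
  classical
  have hn3 : (3 : ℝ) ≤ n := by exact_mod_cast hn
  have hn1 : (0 : ℝ) < (n : ℝ) - 1 := by linarith
  have hl0 : ∀ i, 0 < l i := fun i => hn1.trans_le (hl i)
  have hphi : ∑ i, f i / l i ≤ 3 / 2 := by
    have h1 : ∑ i, f i / l i ≤ ∑ _i : Fin n, 1 / ((n : ℝ) - 1) :=
      Finset.sum_le_sum fun i _ => div_le_div₀ zero_le_one (hf1 i).le hn1 (hl i)
    rw [Finset.sum_const, Finset.card_univ, Fintype.card_fin, nsmul_eq_mul] at h1
    refine h1.trans ?_
    rw [mul_one_div, div_le_iff₀ hn1]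
    linarith
  have key : ∀ m : ℕ, ∀ g ∈ G, (∀ i, 0 ≤ g i) → (∀ i, g i ≤ f i) → ∑ i, g i / l i ≤ 1 →
      (D : ℝ) * ∑ i, (f i - g i) ≤ m →
      ∃ g ∈ G, (∀ i, 0 ≤ g i) ∧ (∀ i, g i ≤ f i) ∧ ∑ i, f i / l i - 1 ≤ ∑ i, g i / l i ∧
        ∑ i, g i / l i ≤ 1 := by
    intro m
    induction m with
    | zero =>
      intro g hg hg0 hgf hg1 hm
      refine ⟨g, hg, hg0, hgf, ?_, hg1⟩
      have hD0 : (0 : ℝ) < D := by exact_mod_cast hD
      have h1 : ∑ i, (f i - g i) ≤ 0 := by
        by_contra h
        rw [not_le] at h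
        have := mul_pos hD0 h
        rw [Nat.cast_zero] at hm
        linarith
      have h2 : ∀ i ∈ Finset.univ, f i - g i = 0 :=
        (Finset.sum_eq_zero_iff_of_nonneg fun i _ => sub_nonneg.2 (hgf i)).1
          (le_antisymm h1 (Finset.sum_nonneg fun i _ => sub_nonneg.2 (hgf i)))
      have h3 : ∑ i, f i / l i = ∑ i, g i / l i :=
        Finset.sum_congr rfl fun i hi => by rw [sub_eq_zero.1 (h2 i hi)]
      linarith
    | succ m ih =>
      intro g hg hg0 hgf hg1 hm
      by_cases hge : ∑ i, f i / l i - 1 ≤ ∑ i, g i / l i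
      · exact ⟨g, hg, hg0, hgf, hge, hg1⟩
      rw [not_le] at hge
      have hω : ∑ i, (f i - g i) / l i = ∑ i, f i / l i - ∑ i, g i / l i := by
        rw [← Finset.sum_sub_distrib]
        exact Finset.sum_congr rfl fun i _ => sub_div _ _ _
      have hbig : (n : ℝ) - 1 < ∑ i, (f i - g i) := by
        have h1 : ∑ i, (f i - g i) / l i ≤ ∑ i, (f i - g i) / ((n : ℝ) - 1) :=
          Finset.sum_le_sum fun i _ => div_le_div_of_nonneg_left (sub_nonneg.2 (hgf i)) hn1 (hl i)
        rw [← Finset.sum_div] at h1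
        have h2 : 1 < (∑ i, (f i - g i)) / ((n : ℝ) - 1) := by linarith
        rwa [lt_div_iff₀ hn1, one_mul] at h2
      have h1G : (fun _ : Fin n => (1 : ℝ)) ∈ G := by
        have := hZ fun _ => 1
        simpa using this
      obtain ⟨h0, hh0, ⟨j0, hj0⟩, hh1, hh2⟩ := ew (by omega) G hZ D hD hGD
        ((fun _ => 1) - (f - g)) (G.sub_mem h1G (G.sub_mem hf hg))
        (fun i => by
          simp only [Pi.sub_apply]
          have h2 := hf1 i
          have h3 := hg0 i
          linarith)
        (by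
          simp only [Pi.sub_apply]
          rw [Finset.sum_sub_distrib, Finset.sum_const, Finset.card_univ, Fintype.card_fin,
            nsmul_eq_mul, mul_one]
          linarith)
      have hh2' : ∀ i, h0 i < f i - g i := fun i => by
        have := hh2 i
        simp only [Pi.sub_apply] at this
        linarith
      obtain ⟨h, hh, ⟨j, hj⟩, ha, hb, hc⟩ : ∃ h ∈ G, (∃ i, 0 < h i) ∧ (∀ i, 0 ≤ h i) ∧
          (∀ i, h i ≤ f i - g i) ∧ ∑ i, h i / l i ≤ 3 / 4 := by
        by_cases hc : ∑ i, h0 i / l i ≤ 3 / 4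
        · exact ⟨h0, hh0, ⟨j0, hj0⟩, hh1, fun i => (hh2' i).le, hc⟩
        · rw [not_le] at hc
          refine ⟨f - g - h0, G.sub_mem (G.sub_mem hf hg) hh0, ⟨j0, ?_⟩, fun i => ?_, fun i => ?_, ?_⟩
          · have := hh2' j0
            simp only [Pi.sub_apply]
            linarith
          · have := hh2' i
            simp only [Pi.sub_apply]
            linarith
          · have := hh1 i
            simp only [Pi.sub_apply]
            linarith
          · have h3 : ∑ i, (f - g - h0) i / l i = ∑ i, (f i - g i) / l i - ∑ i, h0 i / l i := by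
              rw [← Finset.sum_sub_distrib]
              refine Finset.sum_congr rfl fun i _ => ?_
              simp only [Pi.sub_apply]
              ring
            have h4 : 0 ≤ ∑ i, g i / l i :=
              Finset.sum_nonneg fun i _ => div_nonneg (hg0 i) (hl0 i).le
            rw [h3, hω]
            linarith
      by_cases hd : ∑ i, f i / l i - 1 ≤ ∑ i, h i / l i
      · exact ⟨h, hh, ha, fun i => by have := hb i; have := hg0 i; linarith, hd, by linarith⟩
      rw [not_le] at hd
      have hsum2 : ∑ i, (g + h) i / l i = ∑ i, g i / l i + ∑ i, h i / l i := by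
        rw [← Finset.sum_add_distrib]
        exact Finset.sum_congr rfl fun i _ => add_div _ _ _
      refine ih (g + h) (G.add_mem hg hh) (fun i => add_nonneg (hg0 i) (ha i))
        (fun i => ?_) ?_ ?_
      · have := hb i
        simp only [Pi.add_apply]
        linarith
      · rw [hsum2]
        linarith
      · have h3 : ∑ i, (f i - (g + h) i) = ∑ i, (f i - g i) - ∑ i, h i := by
          rw [← Finset.sum_sub_distrib]
          refine Finset.sum_congr rfl fun i _ => ?_
          simp only [Pi.add_apply]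
          ring
        have h4 : 1 ≤ (D : ℝ) * ∑ i, h i := by
          have hD0 : (0 : ℝ) < D := by exact_mod_cast hD
          obtain ⟨z, hz⟩ := hGD h hh j
          have h5 : (0 : ℝ) < z := by
            rw [← hz]
            exact mul_pos hD0 hj
          have h6 : (0 : ℤ) < z := by exact_mod_cast h5
          have h7 : (1 : ℝ) ≤ z := by exact_mod_cast h6
          have h8 : h j ≤ ∑ i, h i :=
            Finset.single_le_sum (fun i _ => ha i) (Finset.mem_univ j)
          calc (1 : ℝ) ≤ D * h j := by rw [hz]; exact h7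
            _ ≤ _ := mul_le_mul_of_nonneg_left h8 hD0.le
        rw [h3, mul_sub]
        push_cast at hm
        linarith
  obtain ⟨m, hm⟩ := exists_nat_ge ((D : ℝ) * ∑ i, (f i - (0 : Fin n → ℝ) i))
  exact key m 0 G.zero_mem (fun i => le_rfl) hf0 (by simp) hm

/-- Splitting of a lattice point of a simplicial cone. -/
theorem split {n : ℕ} (hn : 3 ≤ n) (G : AddSubgroup (Fin n → ℝ))
    (hZ : ∀ a : Fin n → ℤ, (fun i => (a i : ℝ)) ∈ G) (D : ℕ) (hD : 0 < D)
    (hGD : ∀ a ∈ G, ∀ i, ∃ z : ℤ, (D : ℝ) * a i = z) (l : Fin n → ℝ)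
    (hl : ∀ i, (n : ℝ) - 1 ≤ l i) (b : Fin n → ℝ) (hb : b ∈ G) (hb0 : ∀ i, 0 ≤ b i)
    (c : ℝ) (hc : 1 ≤ ((n : ℝ) - 1) * c) (hsum : ∑ i, b i / l i = 2 - c) :
    ∃ a ∈ G, (∀ i, 0 ≤ a i) ∧ (∀ i, a i ≤ b i) ∧ 1 - c ≤ ∑ i, a i / l i ∧
      ∑ i, a i / l i ≤ 1 := by
  classical
  have hn3 : (3 : ℝ) ≤ n := by exact_mod_cast hn
  have hn1 : (0 : ℝ) < (n : ℝ) - 1 := by linarith
  have hl0 : ∀ i, 0 < l i := fun i => hn1.trans_le (hl i)
  have hfG : (fun i => Int.fract (b i)) ∈ G := by
    have h1 : (fun i => Int.fract (b i)) = b - fun i => ((⌊b i⌋ : ℤ) : ℝ) := by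
      funext i
      rfl
    rw [h1]
    exact G.sub_mem hb (hZ _)
  obtain ⟨g, hg, hg0, hgf, hg1, hg2⟩ := descent hn G hZ D hD hGD l hl
    (fun i => Int.fract (b i)) hfG (fun i => Int.fract_nonneg _) (fun i => Int.fract_lt_one _)
  set S : Finset (Fin n → ℕ) := (Fintype.piFinset fun i => Finset.range (⌊b i⌋₊ + 1)).filter
    fun s => ∑ i, g i / l i + ∑ i, (s i : ℝ) / l i ≤ 1 with hS
  have hSne : S.Nonempty := ⟨0, by
    rw [hS, Finset.mem_filter]
    refine ⟨by simp, ?_⟩
    simpa using hg2⟩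
  obtain ⟨s, hs, hmax⟩ := S.exists_max_image (fun s => ∑ i, s i) hSne
  rw [hS, Finset.mem_filter, Fintype.mem_piFinset] at hs
  obtain ⟨hs1, hs2⟩ := hs
  have hsle : ∀ i, s i ≤ ⌊b i⌋₊ := fun i => by
    have := hs1 i
    rw [Finset.mem_range] at this
    omega
  have hfl : ∀ i, ((⌊b i⌋₊ : ℕ) : ℝ) + Int.fract (b i) = b i := by
    intro i
    have h1 := Int.floor_add_fract (b i)
    have h2 : ((⌊b i⌋₊ : ℕ) : ℝ) = ((⌊b i⌋ : ℤ) : ℝ) := natCast_floor_eq_intCast_floor (hb0 i)
    rw [h2]
    exact h1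
  have hval : 1 - c ≤ ∑ i, g i / l i + ∑ i, (s i : ℝ) / l i := by
    by_contra hlt
    rw [not_le] at hlt
    by_cases hall : ∀ i, s i = ⌊b i⌋₊
    · have h1 : ∑ i, (s i : ℝ) / l i + ∑ i, Int.fract (b i) / l i = 2 - c := by
        rw [← hsum, ← Finset.sum_add_distrib]
        refine Finset.sum_congr rfl fun i _ => ?_
        rw [← add_div, hall i, hfl i]
      linarith
    · push Not at hall
      obtain ⟨i, hi⟩ := hall
      have hi2 : s i + 1 ≤ ⌊b i⌋₊ := by
        have := hsle i
        omega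
      have hmem : Function.update s i (s i + 1) ∈ S := by
        rw [hS, Finset.mem_filter, Fintype.mem_piFinset]
        refine ⟨fun j => ?_, ?_⟩
        · rw [Finset.mem_range]
          by_cases hji : j = i
          · subst hji
            rw [Function.update_self]
            omega
          · rw [Function.update_of_ne hji]
            have := hsle j
            omega
        · have h1 : ∑ j, ((Function.update s i (s i + 1) j : ℕ) : ℝ) / l j =
              ∑ j, (s j : ℝ) / l j + 1 / l i := by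
            rw [← Finset.add_sum_erase _ _ (Finset.mem_univ i),
              ← Finset.add_sum_erase Finset.univ (fun j => (s j : ℝ) / l j) (Finset.mem_univ i),
              Function.update_self]
            have h2 : ∑ j ∈ Finset.univ.erase i, ((Function.update s i (s i + 1) j : ℕ) : ℝ) / l j
                = ∑ j ∈ Finset.univ.erase i, (s j : ℝ) / l j := by
              refine Finset.sum_congr rfl fun j hj => ?_
              rw [Function.update_of_ne (Finset.ne_of_mem_erase hj)]
            rw [h2]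
            push_cast
            ring
          rw [h1]
          have h2 : 1 / l i ≤ c := by
            rw [div_le_iff₀ (hl0 i)]
            have hc0 : 0 < c := by
              by_contra h
              have := mul_nonpos_of_nonneg_of_nonpos hn1.le (not_lt.1 h)
              linarith
            nlinarith [hl i]
          linarith
      have h1 := hmax _ hmem
      rw [← Finset.add_sum_erase _ _ (Finset.mem_univ i),
        ← Finset.add_sum_erase Finset.univ s (Finset.mem_univ i), Function.update_self] at h1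
      have h2 : ∑ j ∈ Finset.univ.erase i, Function.update s i (s i + 1) j
          = ∑ j ∈ Finset.univ.erase i, s j := by
        refine Finset.sum_congr rfl fun j hj => ?_
        rw [Function.update_of_ne (Finset.ne_of_mem_erase hj)]
      omega
  have hsum3 : ∑ i, (g + fun i => ((s i : ℤ) : ℝ)) i / l i =
      ∑ i, g i / l i + ∑ i, (s i : ℝ) / l i := by
    rw [← Finset.sum_add_distrib]
    refine Finset.sum_congr rfl fun i _ => ?_
    simp only [Pi.add_apply, Int.cast_natCast]
    rw [add_div]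
  refine ⟨g + fun i => ((s i : ℤ) : ℝ), G.add_mem hg (hZ fun i => s i), fun i => ?_, fun i => ?_,
    ?_, ?_⟩
  · simp only [Pi.add_apply, Int.cast_natCast]
    exact add_nonneg (hg0 i) (Nat.cast_nonneg _)
  · simp only [Pi.add_apply, Int.cast_natCast]
    rw [← hfl i]
    have h1 : (s i : ℝ) ≤ (⌊b i⌋₊ : ℕ) := by exact_mod_cast hsle i
    linarith [hgf i]
  · rw [hsum3]
    exact hval
  · rw [hsum3]
    exact hs2

end Pool.Agent.J6H7.IC
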