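import Mathlib

/-!
# Decomposition of the points near the top of the parallelepiped of a simplicial cone
-/

set_option autoImplicit false

namespace Pool.Agent.J6H7.IC

open Finset

/-- Counting the carries of the multiples of `e`. -/
theorem ew {n : ℕ} (hn : 2 ≤ n) (G : AddSubgroup (Fin n → ℝ))
    (hZ : ∀ a : Fin n → ℤ, (fun i => (a i : ℝ)) ∈ G) (D : ℕ) (hD : 0 < D)
    (hGD : ∀ a ∈ G, ∀ i, ∃ z : ℤ, (D : ℝ) * a i = z) (e : Fin n → ℝ) (he : e ∈ G)
    (he0 : ∀ i, 0 < e i) (hsum : ∑ i, e i < 1) :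
    ∃ g ∈ G, (∃ i, 0 < g i) ∧ (∀ i, 0 ≤ g i) ∧ ∀ i, g i + e i < 1 := by
  classical
  have he1 : ∀ i, e i < 1 := fun i =>
    (Finset.single_le_sum (fun j _ => (he0 j).le) (Finset.mem_univ i)).trans_lt hsum
  have hex : ∃ N : ℕ, 0 < N ∧ ∀ i, ∃ z : ℤ, (N : ℝ) * e i = z := ⟨D, hD, hGD e he⟩
  obtain ⟨N, ⟨hN0, hN⟩, hmin⟩ : ∃ N : ℕ, (0 < N ∧ ∀ i, ∃ z : ℤ, (N : ℝ) * e i = z) ∧
      ∀ k < N, ¬ (0 < k ∧ ∀ i, ∃ z : ℤ, (k : ℝ) * e i = z) :=
    ⟨Nat.find hex, Nat.find_spec hex, fun k hk => Nat.find_min hex hk⟩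
  have hN1 : N ≠ 1 := by
    rintro rfl
    obtain ⟨z, hz⟩ := hN ⟨0, by omega⟩
    have h1 := he0 ⟨0, by omega⟩
    have h2 := he1 ⟨0, by omega⟩
    rw [Nat.cast_one, one_mul] at hz
    rw [hz] at h1 h2
    have h3 : (0 : ℤ) < z := by exact_mod_cast h1
    have h4 : z < (1 : ℤ) := by exact_mod_cast h2
    omega
  by_contra hcon
  push Not at hcon
  set F : ℕ → ℤ := fun k => ∑ i, ⌊(k : ℝ) * e i⌋ with hF
  have step : ∀ k : ℕ, 1 ≤ k → k < N → F k + 1 ≤ F (k + 1) := by
    intro k hk hkN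
    have hg : (fun i => Int.fract ((k : ℝ) * e i)) ∈ G := by
      have h1 : (fun i => Int.fract ((k : ℝ) * e i)) =
          k • e - fun i => ((⌊(k : ℝ) * e i⌋ : ℤ) : ℝ) := by
        funext i
        simp only [Pi.sub_apply, nsmul_eq_mul]
        rfl
      rw [h1]
      exact G.sub_mem (G.nsmul_mem he k) (hZ _)
    have hpos : ∃ i, 0 < Int.fract ((k : ℝ) * e i) := by
      by_contra h
      push Not at h
      refine hmin k hkN ⟨hk, fun i => ⟨⌊(k : ℝ) * e i⌋, ?_⟩⟩
      have h1 : Int.fract ((k : ℝ) * e i) = 0 := le_antisymm (h i) (Int.fract_nonneg _)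
      have h2 := Int.floor_add_fract ((k : ℝ) * e i)
      rw [h1, add_zero] at h2
      exact h2.symm
    obtain ⟨i, hi⟩ := hcon _ hg hpos (fun i => Int.fract_nonneg _)
    have hmono : ∀ j, ⌊(k : ℝ) * e j⌋ ≤ ⌊((k + 1 : ℕ) : ℝ) * e j⌋ := by
      intro j
      apply Int.floor_le_floor
      push_cast
      nlinarith [he0 j]
    have hstrict : ⌊(k : ℝ) * e i⌋ + 1 ≤ ⌊((k + 1 : ℕ) : ℝ) * e i⌋ := by
      rw [Int.le_floor]
      push_cast
      have h2 := Int.floor_add_fract ((k : ℝ) * e i)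
      nlinarith
    have h3 : F k < F (k + 1) :=
      Finset.sum_lt_sum (fun j _ => hmono j) ⟨i, Finset.mem_univ i, by omega⟩
    omega
  have low : ∀ k : ℕ, 1 ≤ k → k ≤ N → (k : ℤ) - 1 ≤ F k := by
    intro k hk
    induction k, hk using Nat.le_induction with
    | base =>
      intro _
      have : 0 ≤ F 1 := Finset.sum_nonneg fun i _ => Int.floor_nonneg.2 (by
        have := (he0 i).le
        push_cast
        linarith)
      push_cast
      omega
    | succ k hk ih =>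
      intro hkN
      have h1 := ih (by omega)
      have h2 := step k hk (by omega)
      push_cast
      omega
  have hlast : F (N - 1) + n ≤ F N := by
    have h1 : ∀ i, ⌊((N - 1 : ℕ) : ℝ) * e i⌋ + 1 ≤ ⌊(N : ℝ) * e i⌋ := by
      intro i
      obtain ⟨z, hz⟩ := hN i
      rw [hz, Int.floor_intCast]
      have h2 : ((N - 1 : ℕ) : ℝ) * e i < z := by
        rw [Nat.cast_sub (by omega), ← hz]
        push_cast
        nlinarith [he0 i]
      have h3 : ⌊((N - 1 : ℕ) : ℝ) * e i⌋ < z := Int.floor_lt.2 h2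
      omega
    have h2 := Finset.sum_le_sum (s := Finset.univ) fun i _ => h1 i
    rw [Finset.sum_add_distrib, Finset.sum_const, Finset.card_univ, Fintype.card_fin,
      nsmul_eq_mul, mul_one] at h2
    exact h2
  have hup : F N < N := by
    have h1 : ((F N : ℤ) : ℝ) < (N : ℝ) := by
      simp only [hF]
      push_cast
      calc ∑ i, ((⌊(N : ℝ) * e i⌋ : ℤ) : ℝ) ≤ ∑ i, (N : ℝ) * e i :=
            Finset.sum_le_sum fun i _ => Int.floor_le _
        _ = N * ∑ i, e i := by rw [Finset.mul_sum]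
        _ < N * 1 := by
          have : (0 : ℝ) < N := by exact_mod_cast hN0
          exact mul_lt_mul_of_pos_left hsum this
        _ = N := mul_one _
    exact_mod_cast h1
  have h1 := low (N - 1) (by omega) (by omega)
  have h2 : ((N - 1 : ℕ) : ℤ) = N - 1 := by omega
  rw [h2] at h1
  omega

end Pool.Agent.J6H7.IC
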