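import Pool.Agent.J6H7.IC.Geom

/-!
# A quantitative form of the lemma of Shapley and Folkman (Caratheodory and the Cayley trick)
-/

set_option autoImplicit false

namespace Pool.Agent.J6H7.IC

open Finset

variable {n : ℕ} {ι : Type} [Fintype ι] [DecidableEq ι]

/-- The point `(v, e_i)`. -/
noncomputable def emb (x : (_ : ι) × (Fin n → ℝ)) : (Fin n → ℝ) × (ι → ℝ) := (x.2, Pi.single x.1 1)

omit [Fintype ι] in
theorem emb_injective : Function.Injective (emb : (_ : ι) × (Fin n → ℝ) → (Fin n → ℝ) × (ι → ℝ)) := by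
  rintro ⟨i, v⟩ ⟨j, w⟩ h
  simp only [emb, Prod.mk.injEq] at h
  obtain ⟨rfl, h2⟩ := h
  have h3 : i = j := by
    by_contra hne
    have h4 := congrFun h2 i
    rw [Pi.single_eq_same, Pi.single_eq_of_ne hne] at h4
    exact one_ne_zero h4
  rw [h3]

/-- The functional which adds the last coordinates. -/
noncomputable def phi : ((Fin n → ℝ) × (ι → ℝ)) →ₗ[ℝ] ℝ where
  toFun p := ∑ i, p.2 i
  map_add' p q := by simp [Finset.sum_add_distrib]
  map_smul' c p := by simp [Finset.mul_sum]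

theorem phi_emb (x : (_ : ι) × (Fin n → ℝ)) : phi (emb x) = 1 := by
  simp [phi, emb]

theorem finrank_ker_phi [Nonempty ι] :
    Module.finrank ℝ (LinearMap.ker (phi : ((Fin n → ℝ) × (ι → ℝ)) →ₗ[ℝ] ℝ)) + 1 =
      n + Fintype.card ι := by
  have h1 := (phi : ((Fin n → ℝ) × (ι → ℝ)) →ₗ[ℝ] ℝ).finrank_range_add_finrank_ker
  have h2 : LinearMap.range (phi : ((Fin n → ℝ) × (ι → ℝ)) →ₗ[ℝ] ℝ) = ⊤ := by
    rw [LinearMap.range_eq_top]
    intro c
    obtain ⟨i⟩ := ‹Nonempty ι›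
    refine ⟨c • emb ⟨i, 0⟩, ?_⟩
    rw [map_smul, phi_emb]
    simp
  rw [h2, finrank_top, Module.finrank_self, Module.finrank_prod, Module.finrank_fin_fun,
    Module.finrank_fintype_fun_eq_card] at h1
  omega

theorem shapley_folkman [Nonempty ι] (V : ι → Finset (Fin n → ℝ)) (g : ι → Fin n → ℝ)
    (hg : ∀ i, g i ∈ convexHull ℝ (V i : Set (Fin n → ℝ))) :
    ∃ (s : ι → Finset (Fin n → ℝ)) (h : ι → Fin n → ℝ), (∀ i, s i ⊆ V i) ∧
      (∀ i, h i ∈ convexHull ℝ (s i : Set (Fin n → ℝ))) ∧ ∑ i, h i = ∑ i, g i ∧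
      ∑ i, (s i).card ≤ n + Fintype.card ι := by
  classical
  obtain ⟨k, hk⟩ : ∃ k : ℝ, k = ((Fintype.card ι : ℕ) : ℝ) := ⟨_, rfl⟩
  have hk0 : 0 < k := by
    rw [hk]
    exact_mod_cast Fintype.card_pos
  let K : Set ((Fin n → ℝ) × (ι → ℝ)) := {p | ∃ i, ∃ v ∈ V i, p = emb ⟨i, v⟩}
  have h1 : ∀ i, emb ⟨i, g i⟩ ∈ convexHull ℝ K := by
    intro i
    have h2 : convexHull ℝ (V i : Set (Fin n → ℝ)) ⊆ {v | emb ⟨i, v⟩ ∈ convexHull ℝ K} := by
      apply convexHull_min
      · intro v hv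
        exact subset_convexHull ℝ K ⟨i, v, hv, rfl⟩
      · intro v hv w hw a b ha hb hab
        have h3 := (convex_convexHull ℝ K) hv hw ha hb hab
        have h4 : a • emb ⟨i, v⟩ + b • emb ⟨i, w⟩ = emb ⟨i, a • v + b • w⟩ := by
          simp only [emb, Prod.smul_mk, Prod.mk_add_mk, Prod.mk.injEq, true_and]
          rw [← add_smul, hab, one_smul]
        rw [h4] at h3
        exact h3
    exact h2 (hg i)
  have h2 : ∑ i : ι, (1 / k) • emb ⟨i, g i⟩ ∈ convexHull ℝ K := by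
    apply (convex_convexHull ℝ K).sum_mem
    · intro i _
      positivity
    · rw [Finset.sum_const, Finset.card_univ, nsmul_eq_mul, ← hk]
      field_simp
    · intro i _
      exact h1 i
  rw [convexHull_eq_union] at h2
  simp only [Set.mem_iUnion, exists_prop] at h2
  obtain ⟨s', hs', hind, hy⟩ := h2
  rw [Finset.mem_convexHull'] at hy
  obtain ⟨w, hw0, hw1, hwy⟩ := hy
  let s : ι → Finset (Fin n → ℝ) := fun i => (V i).filter fun v => emb ⟨i, v⟩ ∈ s'
  have hs : s' = (Finset.univ.sigma s).image emb := by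
    ext p
    simp only [Finset.mem_image, Finset.mem_sigma, Finset.mem_univ, true_and, s,
      Finset.mem_filter]
    constructor
    · intro hp
      obtain ⟨i, v, hv, rfl⟩ := hs' (Finset.mem_coe.2 hp)
      exact ⟨⟨i, v⟩, ⟨hv, hp⟩, rfl⟩
    · rintro ⟨x, ⟨-, hx⟩, rfl⟩
      exact hx
  have hsum : ∀ (F : Type) [AddCommMonoid F] (f : (Fin n → ℝ) × (ι → ℝ) → F),
      ∑ p ∈ s', f p = ∑ i, ∑ v ∈ s i, f (emb ⟨i, v⟩) := by
    intro F _ f
    conv_lhs => rw [hs]
    rw [Finset.sum_image (fun x _ y _ h => emb_injective h), Finset.sum_sigma]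
  have hcard : ∑ i, (s i).card = s'.card := by
    conv_rhs => rw [hs]
    rw [Finset.card_image_of_injective _ emb_injective, Finset.card_sigma]
  have hle : s'.card ≤ n + Fintype.card ι := by
    have h3 := hind.card_le_finrank_succ
    rw [Fintype.card_coe] at h3
    have h4 : vectorSpan ℝ (Set.range ((↑) : s' → (Fin n → ℝ) × (ι → ℝ))) ≤
        LinearMap.ker (phi : ((Fin n → ℝ) × (ι → ℝ)) →ₗ[ℝ] ℝ) := by
      rw [vectorSpan_def, Submodule.span_le]
      rintro _ ⟨_, ⟨p, rfl⟩, _, ⟨q, rfl⟩, rfl⟩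
      obtain ⟨i, v, -, hp⟩ := hs' p.2
      obtain ⟨j, u, -, hq⟩ := hs' q.2
      simp only [vsub_eq_sub, SetLike.mem_coe, LinearMap.mem_ker, map_sub]
      rw [hp, hq, phi_emb, phi_emb, sub_self]
    have h5 := Submodule.finrank_mono h4
    have h6 := finrank_ker_phi (n := n) (ι := ι)
    omega
  have hy1 : ∑ i, ∑ v ∈ s i, w (emb ⟨i, v⟩) • v = (1 / k) • ∑ i, g i := by
    have h3 := congrArg Prod.fst hwy
    rw [Prod.fst_sum, Prod.fst_sum, hsum] at h3
    simp only [Prod.smul_fst, emb] at h3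
    rw [Finset.smul_sum]
    exact h3
  have hy2 : ∀ i, ∑ v ∈ s i, w (emb ⟨i, v⟩) = 1 / k := by
    intro i
    have h3 := congrFun (congrArg Prod.snd hwy) i
    rw [Prod.snd_sum, Prod.snd_sum, Finset.sum_apply, Finset.sum_apply, hsum] at h3
    simp only [Prod.smul_snd, Pi.smul_apply, emb, smul_eq_mul] at h3
    rw [Finset.sum_eq_single i, Finset.sum_eq_single i] at h3
    · simpa [emb] using h3
    · intro j _ hj
      rw [Pi.single_eq_of_ne hj.symm, mul_zero]
    · simp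
    · intro j _ hj
      apply Finset.sum_eq_zero
      intro v _
      rw [Pi.single_eq_of_ne hj.symm, mul_zero]
    · simp
  refine ⟨s, fun i => ∑ v ∈ s i, (k * w (emb ⟨i, v⟩)) • v, fun i => Finset.filter_subset _ _,
    fun i => ?_, ?_, by rw [hcard]; exact hle⟩
  · rw [Finset.mem_convexHull']
    refine ⟨fun v => k * w (emb ⟨i, v⟩), fun v hv => ?_, ?_, rfl⟩
    · exact mul_nonneg hk0.le (hw0 _ (Finset.mem_filter.1 hv).2)
    · rw [← Finset.mul_sum, hy2 i]
      field_simp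
  · have h3 : ∀ i, ∑ v ∈ s i, (k * w (emb ⟨i, v⟩)) • v = k • ∑ v ∈ s i, w (emb ⟨i, v⟩) • v := by
      intro i
      rw [Finset.smul_sum]
      exact Finset.sum_congr rfl fun v _ => by rw [mul_smul]
    simp only [h3]
    rw [← Finset.smul_sum, hy1, smul_smul, mul_one_div_cancel hk0.ne', one_smul]

end Pool.Agent.J6H7.IC
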