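import Pool.Agent.J6H7.IC.Round

/-!
# Convex hulls of lattice points which are far apart
-/

set_option autoImplicit false

namespace Pool.Agent.J6H7.IC

open Finset

/-- The lattice of the integer points. -/
def lattice (n : ℕ) : Set (Fin n → ℝ) := {x | ∀ i, ∃ z : ℤ, x i = z}

/-- Any two different points of `V` have lattice distance at least `d`: their difference is `l` times
a lattice vector for some integer `l ≥ d`. -/
def Apart {n : ℕ} (V : Finset (Fin n → ℝ)) (d : ℝ) : Prop :=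
  ∀ u ∈ V, ∀ v ∈ V, u ≠ v → ∃ l : ℕ, d ≤ l ∧ ∃ w ∈ lattice n, u - v = (l : ℝ) • w

/-- The dimension of the convex hull of `V`. -/
noncomputable def dim {n : ℕ} (V : Finset (Fin n → ℝ)) : ℕ :=
  Module.finrank ℝ (vectorSpan ℝ (V : Set (Fin n → ℝ)))

theorem lattice_add {n : ℕ} {x y : Fin n → ℝ} (hx : x ∈ lattice n) (hy : y ∈ lattice n) :
    x + y ∈ lattice n := by
  intro i
  obtain ⟨a, ha⟩ := hx i
  obtain ⟨b, hb⟩ := hy i
  exact ⟨a + b, by rw [Pi.add_apply, ha, hb]; push_cast; ring⟩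

theorem lattice_nsmul {n : ℕ} {x : Fin n → ℝ} (hx : x ∈ lattice n) (k : ℕ) :
    (k : ℝ) • x ∈ lattice n := by
  intro i
  obtain ⟨a, ha⟩ := hx i
  exact ⟨k * a, by rw [Pi.smul_apply, ha, smul_eq_mul]; push_cast; ring⟩

theorem lattice_neg {n : ℕ} {x : Fin n → ℝ} (hx : x ∈ lattice n) : -x ∈ lattice n := by
  intro i
  obtain ⟨a, ha⟩ := hx i
  exact ⟨-a, by rw [Pi.neg_apply, ha]; push_cast; ring⟩

theorem lattice_zero (n : ℕ) : (0 : Fin n → ℝ) ∈ lattice n := fun i => ⟨0, by simp⟩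

theorem lattice_sum {n : ℕ} {ι : Type} (s : Finset ι) (f : ι → Fin n → ℝ)
    (h : ∀ i ∈ s, f i ∈ lattice n) : ∑ i ∈ s, f i ∈ lattice n := by
  classical
  induction s using Finset.induction_on with
  | empty => simpa using lattice_zero n
  | insert a s ha ih =>
    rw [Finset.sum_insert ha]
    exact lattice_add (h a (Finset.mem_insert_self _ _))
      (ih fun i hi => h i (Finset.mem_insert_of_mem hi))

theorem exists_lattice_point {n : ℕ} (V : Finset (Fin n → ℝ)) (hV : ∀ v ∈ V, v ∈ lattice n)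
    {r : ℝ} (hr : 0 < r) (hA : Apart V ((dim V : ℝ) / r)) {y : Fin n → ℝ}
    (hy : y ∈ convexHull ℝ (V : Set (Fin n → ℝ))) :
    ∃ z ∈ convexHull ℝ (V : Set (Fin n → ℝ)), z ∈ lattice n ∧
      ∃ u ∈ convexHull ℝ (V : Set (Fin n → ℝ)), (r + 1) • y = z + r • u := by
  classical
  rw [convexHull_eq_union] at hy
  simp only [Set.mem_iUnion, exists_prop] at hy
  obtain ⟨s, hsV, hind, hys⟩ := hy
  have hsV' : ∀ v ∈ s, v ∈ V := fun v hv => hsV (Finset.mem_coe.2 hv)
  have hcard : s.card ≤ dim V + 1 := by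
    have h1 := hind.card_le_finrank_succ
    rw [Fintype.card_coe] at h1
    refine h1.trans (Nat.succ_le_succ ?_)
    apply Submodule.finrank_mono
    apply vectorSpan_mono
    rintro _ ⟨v, rfl⟩
    exact hsV v.2
  rw [Finset.mem_convexHull'] at hys
  obtain ⟨w, hw0, hw1, hwy⟩ := hys
  have hl : ∃ l : (Fin n → ℝ) → (Fin n → ℝ) → ℕ, ∃ g : (Fin n → ℝ) → (Fin n → ℝ) → Fin n → ℝ,
      ∀ a ∈ s, ∀ b ∈ s, a ≠ b → (1 ≤ l a b ∧ ((dim V : ℕ) : ℝ) ≤ l a b * r) ∧
        g a b ∈ lattice n ∧ b - a = (l a b : ℝ) • g a b := by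
    have h1 : ∀ a b : Fin n → ℝ, ∃ lg : ℕ × (Fin n → ℝ), a ∈ s → b ∈ s → a ≠ b →
        (1 ≤ lg.1 ∧ ((dim V : ℕ) : ℝ) ≤ lg.1 * r) ∧ lg.2 ∈ lattice n ∧ b - a = (lg.1 : ℝ) • lg.2 := by
      intro a b
      by_cases h : a ∈ s ∧ b ∈ s ∧ a ≠ b
      · obtain ⟨ha, hb, hab⟩ := h
        obtain ⟨l, hl1, g, hg, hg2⟩ := hA b (hsV' b hb) a (hsV' a ha) hab.symm
        refine ⟨(l, g), fun _ _ _ => ⟨⟨?_, ?_⟩, hg, hg2⟩⟩
        · rcases Nat.eq_zero_or_pos l with h0 | h0
          · exfalso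
            rw [h0, Nat.cast_zero, zero_smul, sub_eq_zero] at hg2
            exact hab hg2.symm
          · exact h0
        · rwa [div_le_iff₀ hr] at hl1
      · exact ⟨(0, 0), fun ha hb hab => absurd ⟨ha, hb, hab⟩ h⟩
    choose lg hlg using h1
    exact ⟨fun a b => (lg a b).1, fun a b => (lg a b).2, fun a ha b hb hab => hlg a b ha hb hab⟩
  obtain ⟨l, g, hlg⟩ := hl
  obtain ⟨a, ha, m, hm1, hm2, hm3⟩ := rounding s (dim V) hcard r hr (fun b => (r + 1) * w b)
    (fun b hb => mul_nonneg (by linarith) (hw0 b hb)) (by rw [← Finset.mul_sum, hw1, mul_one])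
    l (fun a ha b hb hab => (hlg a ha b hb hab).1)
  -- the weights of the lattice point
  set c : (Fin n → ℝ) → ℝ := fun b =>
    if b = a then 1 - ∑ b ∈ s.erase a, (m b : ℝ) / l a b else (m b : ℝ) / l a b with hc
  have hca : c a = 1 - ∑ b ∈ s.erase a, (m b : ℝ) / l a b := by simp [hc]
  have hcb : ∀ b ∈ s.erase a, c b = (m b : ℝ) / l a b := fun b hb => by
    simp [hc, Finset.ne_of_mem_erase hb]
  have hc0 : ∀ b ∈ s, 0 ≤ c b := by
    intro b hb
    by_cases hba : b = a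
    · rw [hba, hca]
      linarith
    · rw [hcb b (Finset.mem_erase.2 ⟨hba, hb⟩)]
      positivity
  have hcle : ∀ b ∈ s, c b ≤ (r + 1) * w b := by
    intro b hb
    by_cases hba : b = a
    · rw [hba, hca]
      linarith
    · rw [hcb b (Finset.mem_erase.2 ⟨hba, hb⟩)]
      exact hm1 b (Finset.mem_erase.2 ⟨hba, hb⟩)
  have hcsum : ∑ b ∈ s, c b = 1 := by
    rw [← Finset.add_sum_erase s c ha, hca, Finset.sum_congr rfl hcb]
    ring
  have hsub : convexHull ℝ (s : Set (Fin n → ℝ)) ⊆ convexHull ℝ (V : Set (Fin n → ℝ)) :=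
    convexHull_mono hsV
  refine ⟨∑ b ∈ s, c b • b, hsub ?_, ?_, ∑ b ∈ s, (((r + 1) * w b - c b) / r) • b, hsub ?_, ?_⟩
  · rw [Finset.mem_convexHull']
    exact ⟨c, hc0, hcsum, rfl⟩
  · have h1 : ∑ b ∈ s, c b • b = a + ∑ b ∈ s.erase a, (m b : ℝ) • g a b := by
      have h2 : ∑ b ∈ s, c b • b = a + ∑ b ∈ s.erase a, c b • (b - a) := by
        simp only [smul_sub]
        rw [Finset.sum_sub_distrib, ← Finset.sum_smul, ← Finset.add_sum_erase s _ ha]
        have h3 : ∑ b ∈ s.erase a, c b = 1 - c a := by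
          have h4 := Finset.add_sum_erase s c ha
          linarith
        rw [h3, sub_smul, one_smul]
        abel
      rw [h2]
      congr 1
      refine Finset.sum_congr rfl fun b hb => ?_
      have h3 := hlg a ha b (Finset.mem_of_mem_erase hb) (Finset.ne_of_mem_erase hb).symm
      have h4 : (l a b : ℝ) ≠ 0 := by
        have := h3.1.1
        positivity
      rw [hcb b hb, h3.2.2, smul_smul, div_mul_cancel₀ _ h4]
    rw [h1]
    exact lattice_add (hV a (hsV' a ha)) (lattice_sum _ _ fun b hb => lattice_nsmul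
      (hlg a ha b (Finset.mem_of_mem_erase hb) (Finset.ne_of_mem_erase hb).symm).2.1 _)
  · rw [Finset.mem_convexHull']
    refine ⟨fun b => ((r + 1) * w b - c b) / r, fun b hb => ?_, ?_, rfl⟩
    · exact div_nonneg (by linarith [hcle b hb]) hr.le
    · rw [← Finset.sum_div, Finset.sum_sub_distrib, ← Finset.mul_sum, hw1, hcsum]
      field_simp
      ring
  · rw [← hwy, Finset.smul_sum, Finset.smul_sum, ← Finset.sum_add_distrib]
    refine Finset.sum_congr rfl fun b _ => ?_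
    rw [smul_smul, smul_smul, ← add_smul]
    congr 1
    field_simp
    ring

end Pool.Agent.J6H7.IC
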