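import Mathlib

/-!
# Rounding of convex combinations of lattice points that are far apart
-/

set_option autoImplicit false

namespace Pool.Agent.J6H7.IC

open Finset

/-- Rounding of the weights. -/
theorem rounding {α : Type} [DecidableEq α] (s : Finset α) (d : ℕ) (hcard : s.card ≤ d + 1)
    (r : ℝ) (hr : 0 < r) (t : α → ℝ) (ht : ∀ a ∈ s, 0 ≤ t a) (hsum : ∑ a ∈ s, t a = r + 1)
    (l : α → α → ℕ) (hl : ∀ a ∈ s, ∀ b ∈ s, a ≠ b → 1 ≤ l a b ∧ (d : ℝ) ≤ l a b * r) :
    ∃ a ∈ s, ∃ m : α → ℕ, (∀ b ∈ s.erase a, (m b : ℝ) / l a b ≤ t b) ∧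
      ∑ b ∈ s.erase a, (m b : ℝ) / l a b ≤ 1 ∧
      1 - t a ≤ ∑ b ∈ s.erase a, (m b : ℝ) / l a b := by
  have hne : s.Nonempty := by
    rw [Finset.nonempty_iff_ne_empty]
    rintro rfl
    rw [Finset.sum_empty] at hsum
    linarith
  obtain ⟨a, ha, hmax⟩ := s.exists_max_image t hne
  refine ⟨a, ha, ?_⟩
  by_cases h1 : 1 ≤ t a
  · refine ⟨fun _ => 0, fun b hb => by simpa using ht b (Finset.mem_of_mem_erase hb), ?_, ?_⟩
    · simp
    · simp [h1]
  rw [not_le] at h1
  have hcpos : 0 < s.card := hne.card_pos
  have hta : r + 1 ≤ (d + 1) * t a := by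
    have h2 : ∑ b ∈ s, t b ≤ s.card • t a := Finset.sum_le_card_nsmul s t (t a) hmax
    rw [hsum, nsmul_eq_mul] at h2
    have h3 : 0 < t a := by
      by_contra h
      rw [not_lt] at h
      have : (s.card : ℝ) * t a ≤ 0 := mul_nonpos_of_nonneg_of_nonpos (Nat.cast_nonneg _) h
      linarith
    have h4 : (s.card : ℝ) ≤ d + 1 := by exact_mod_cast hcard
    nlinarith
  by_contra hcon
  push Not at hcon
  have key : ∀ k : ℕ, ∃ m : α → ℕ, (∀ b ∈ s.erase a, (m b : ℝ) / l a b ≤ t b) ∧
      ∑ b ∈ s.erase a, (m b : ℝ) / l a b ≤ 1 ∧ ∑ b ∈ s.erase a, m b = k := by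
    intro k
    induction k with
    | zero =>
      exact ⟨fun _ => 0, fun b hb => by simpa using ht b (Finset.mem_of_mem_erase hb),
        by simp, by simp⟩
    | succ k ih =>
      obtain ⟨m, h2, h3, h4⟩ := ih
      have h5 := hcon m h2 h3
      obtain ⟨b, hb, hbt⟩ : ∃ b ∈ s.erase a, ((m b : ℝ) + 1) / l a b ≤ t b := by
        by_contra h6
        push Not at h6
        have h7 : ∀ b ∈ s.erase a, t b * (d : ℝ) ≤ (m b : ℝ) / l a b * d + r := by
          intro b hb
          have h8 := hl a ha b (Finset.mem_of_mem_erase hb) (Finset.ne_of_mem_erase hb).symm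
          have h9 : (0 : ℝ) < l a b := by exact_mod_cast h8.1
          have h10 := h6 b hb
          have h11 : t b ≤ (m b : ℝ) / l a b + 1 / l a b := by
            rw [← add_div]
            exact h10.le
          have h12 : (d : ℝ) / l a b ≤ r := by
            rw [div_le_iff₀ h9]
            linarith [h8.2]
          have hd0 : (0 : ℝ) ≤ d := Nat.cast_nonneg _
          calc t b * (d : ℝ) ≤ ((m b : ℝ) / l a b + 1 / l a b) * d :=
                mul_le_mul_of_nonneg_right h11 hd0
            _ = (m b : ℝ) / l a b * d + (d : ℝ) / l a b := by ring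
            _ ≤ _ := by linarith
        have h8 := Finset.sum_le_sum h7
        rw [← Finset.sum_mul, Finset.sum_add_distrib, ← Finset.sum_mul, Finset.sum_const,
          Finset.card_erase_of_mem ha, nsmul_eq_mul] at h8
        have h9 : t a + ∑ b ∈ s.erase a, t b = r + 1 := by
          rw [Finset.add_sum_erase s t ha, hsum]
        have h10 : ((s.card - 1 : ℕ) : ℝ) ≤ d := by exact_mod_cast (by omega : s.card - 1 ≤ d)
        have h11 : (0 : ℝ) < d := by
          by_contra h12
          have h13 : (d : ℝ) = 0 := le_antisymm (not_lt.1 h12) (Nat.cast_nonneg _)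
          rw [h13] at hta
          linarith
        have h12 : ((s.card - 1 : ℕ) : ℝ) * r ≤ d * r := mul_le_mul_of_nonneg_right h10 hr.le
        have h13 : (∑ b ∈ s.erase a, t b) ≤ (∑ b ∈ s.erase a, (m b : ℝ) / l a b) + r := by
          have h14 : (∑ b ∈ s.erase a, t b) * (d : ℝ) ≤
              ((∑ b ∈ s.erase a, (m b : ℝ) / l a b) + r) * d := by linarith
          exact le_of_mul_le_mul_right h14 h11
        linarith
      have h8 := hl a ha b (Finset.mem_of_mem_erase hb) (Finset.ne_of_mem_erase hb).symm
      have h9 : (0 : ℝ) < l a b := by exact_mod_cast h8.1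
      have h10 : (1 : ℝ) ≤ l a b := by exact_mod_cast h8.1
      refine ⟨Function.update m b (m b + 1), ?_, ?_, ?_⟩
      · intro c hc
        by_cases hcb : c = b
        · subst hcb
          rw [Function.update_self]
          push_cast
          exact hbt
        · rw [Function.update_of_ne hcb]
          exact h2 c hc
      · have h11 : ∑ c ∈ s.erase a, ((Function.update m b (m b + 1) c : ℕ) : ℝ) / l a c =
            ∑ c ∈ s.erase a, (m c : ℝ) / l a c + 1 / l a b := by
          rw [← Finset.add_sum_erase _ _ hb, ← Finset.add_sum_erase (s.erase a)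
            (fun c => (m c : ℝ) / l a c) hb, Function.update_self]
          have h12 : ∑ c ∈ (s.erase a).erase b, ((Function.update m b (m b + 1) c : ℕ) : ℝ) / l a c
              = ∑ c ∈ (s.erase a).erase b, (m c : ℝ) / l a c := by
            refine Finset.sum_congr rfl fun c hc => ?_
            rw [Function.update_of_ne (Finset.ne_of_mem_erase hc)]
          rw [h12]
          push_cast
          ring
        rw [h11]
        have h12 : 1 / (l a b : ℝ) ≤ t a := by
          rw [div_le_iff₀ h9]
          have h13 : (d : ℝ) + 1 ≤ l a b * (r + 1) := by nlinarith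
          have hd0 : (0 : ℝ) ≤ d := Nat.cast_nonneg _
          have hta0 : 0 ≤ t a := ht a ha
          have h14 : (r + 1) * 1 ≤ (r + 1) * (t a * l a b) := by
            calc (r + 1) * 1 ≤ (d + 1) * t a := by linarith
              _ ≤ (l a b * (r + 1)) * t a := mul_le_mul_of_nonneg_right h13 hta0
              _ = _ := by ring
          exact le_of_mul_le_mul_left h14 (by linarith)
        linarith
      · rw [← Finset.add_sum_erase _ _ hb, Function.update_self]
        rw [← Finset.add_sum_erase (s.erase a) m hb] at h4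
        have h12 : ∑ c ∈ (s.erase a).erase b, Function.update m b (m b + 1) c
            = ∑ c ∈ (s.erase a).erase b, m c := by
          refine Finset.sum_congr rfl fun c hc => ?_
          rw [Function.update_of_ne (Finset.ne_of_mem_erase hc)]
        rw [h12]
        omega
  obtain ⟨m, h2, h3, h4⟩ := key (∑ b ∈ s.erase a, l a b + 1)
  have h5 : ∀ b ∈ s.erase a, m b ≤ l a b := by
    intro b hb
    have h6 : (m b : ℝ) / l a b ≤ 1 :=
      (Finset.single_le_sum (f := fun b => (m b : ℝ) / l a b)
        (fun c _ => by positivity) hb).trans h3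
    have h7 : (0 : ℝ) < l a b := by
      have := (hl a ha b (Finset.mem_of_mem_erase hb) (Finset.ne_of_mem_erase hb).symm).1
      exact_mod_cast this
    rw [div_le_one h7] at h6
    exact_mod_cast h6
  have h6 := Finset.sum_le_sum h5
  omega

end Pool.Agent.J6H7.IC
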