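import Pool.Agent.J6H7.IC.Descent
import Pool.Agent.J6H7.IC.Geom

/-!
# Lattice simplices with edges of lattice length at least `n - 1`
-/

set_option autoImplicit false

namespace Pool.Agent.J6H7.IC

open Finset

/-- The coordinates of the lattice points with respect to independent lattice vectors. -/
def coordGroup {n : ℕ} (W : Fin n → Fin n → ℝ) : AddSubgroup (Fin n → ℝ) where
  carrier := {a | ∑ i, a i • W i ∈ lattice n}
  zero_mem' := by
    intro i
    exact ⟨0, by simp⟩
  add_mem' := by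
    intro a b ha hb
    have h : ∑ i, (a + b) i • W i = ∑ i, a i • W i + ∑ i, b i • W i := by
      rw [← Finset.sum_add_distrib]
      exact Finset.sum_congr rfl fun i _ => add_smul _ _ _
    simp only [Set.mem_ofPred_eq]
    rw [h]
    exact lattice_add ha hb
  neg_mem' := by
    intro a ha
    have h : ∑ i, (-a) i • W i = -∑ i, a i • W i := by
      rw [← Finset.sum_neg_distrib]
      exact Finset.sum_congr rfl fun i _ => neg_smul _ _
    simp only [Set.mem_ofPred_eq]
    rw [h]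
    exact lattice_neg ha

theorem mem_coordGroup {n : ℕ} {W : Fin n → Fin n → ℝ} {a : Fin n → ℝ} :
    a ∈ coordGroup W ↔ ∑ i, a i • W i ∈ lattice n := Iff.rfl

theorem int_mem {n : ℕ} {W : Fin n → Fin n → ℝ} (hW : ∀ i, W i ∈ lattice n) (a : Fin n → ℤ) :
    (fun i => (a i : ℝ)) ∈ coordGroup W := by
  rw [mem_coordGroup]
  choose Z hZ using hW
  intro j
  refine ⟨∑ i, a i * Z i j, ?_⟩
  rw [Finset.sum_apply]
  push_cast
  refine Finset.sum_congr rfl fun i _ => ?_
  rw [Pi.smul_apply, smul_eq_mul, hZ i j]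

theorem exists_denominator {n : ℕ} {W : Fin n → Fin n → ℝ} (hW : ∀ i, W i ∈ lattice n)
    (hind : LinearIndependent ℝ W) :
    ∃ D : ℕ, 0 < D ∧ ∀ a ∈ coordGroup W, ∀ i, ∃ z : ℤ, (D : ℝ) * a i = z := by
  classical
  choose Z hZ using hW
  set M0 : Matrix (Fin n) (Fin n) ℤ := Matrix.of Z with hM0
  set M : Matrix (Fin n) (Fin n) ℝ := (Int.castRingHom ℝ).mapMatrix M0 with hM
  have hMW : ∀ i j, M i j = W i j := by
    intro i j
    rw [hZ i j]
    rfl
  have hunit : IsUnit M := by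
    rw [← Matrix.linearIndependent_rows_iff_isUnit]
    have h1 : M.row = W := by
      funext i j
      exact hMW i j
    rw [h1]
    exact hind
  have hdet : M0.det ≠ 0 := by
    intro h0
    rw [Matrix.isUnit_iff_isUnit_det, hM, ← RingHom.map_det, h0, map_zero] at hunit
    exact not_isUnit_zero hunit
  have hadj : ∀ a ∈ coordGroup W, ∀ i, ∃ z : ℤ, ((M0.det : ℤ) : ℝ) * a i = z := by
    intro a ha i
    rw [mem_coordGroup] at ha
    choose x hx using ha
    have h1 : Matrix.vecMul a M = fun j => (x j : ℝ) := by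
      funext j
      rw [← hx j, Finset.sum_apply]
      simp only [Matrix.vecMul, dotProduct, Pi.smul_apply, smul_eq_mul]
      exact Finset.sum_congr rfl fun k _ => by rw [hMW]
    have h2 : Matrix.vecMul (Matrix.vecMul a M) M.adjugate = M.det • a := by
      rw [Matrix.vecMul_vecMul, Matrix.mul_adjugate, Matrix.vecMul_smul, Matrix.vecMul_one]
    rw [h1] at h2
    have h3 := congrFun h2 i
    rw [Pi.smul_apply, smul_eq_mul] at h3
    have h4 : M.det = ((M0.det : ℤ) : ℝ) := by
      rw [hM, ← RingHom.map_det]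
      rfl
    have h5 : ∀ j k, M.adjugate j k = ((M0.adjugate j k : ℤ) : ℝ) := by
      intro j k
      rw [hM, ← RingHom.map_adjugate]
      rfl
    rw [← h4, ← h3]
    refine ⟨∑ j, x j * M0.adjugate j i, ?_⟩
    simp only [Matrix.vecMul, dotProduct]
    push_cast
    exact Finset.sum_congr rfl fun k _ => by rw [h5]
  refine ⟨M0.det.natAbs, Int.natAbs_pos.2 hdet, fun a ha i => ?_⟩
  obtain ⟨z, hz⟩ := hadj a ha i
  have h := Int.natAbs_eq M0.det
  generalize M0.det.natAbs = N at h ⊢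
  rcases h with h | h
  · rw [h] at hz
    exact ⟨z, by rw [← hz, Int.cast_natCast]⟩
  · rw [h] at hz
    refine ⟨-z, ?_⟩
    rw [Int.cast_neg, ← hz]
    push_cast
    ring

theorem simplex_split {n : ℕ} (hn : 3 ≤ n) (s : Finset (Fin n → ℝ))
    (hs : ∀ v ∈ s, v ∈ lattice n) (hcard : s.card = n + 1) (hdim : dim s = n)
    (hA : Apart s ((n : ℝ) - 1)) {y : Fin n → ℝ} (hy : y ∈ convexHull ℝ (s : Set (Fin n → ℝ)))
    (hyM : (2 : ℝ) • y ∈ lattice n) :
    ∃ z ∈ convexHull ℝ (s : Set (Fin n → ℝ)), z ∈ lattice n ∧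
      ∃ u ∈ convexHull ℝ (s : Set (Fin n → ℝ)), (2 : ℝ) • y = z + u := by
  classical
  have hn3 : (3 : ℝ) ≤ n := by exact_mod_cast hn
  have hne : s.Nonempty := Finset.card_pos.1 (by omega)
  rw [Finset.mem_convexHull'] at hy
  obtain ⟨w, hw0, hw1, hwy⟩ := hy
  obtain ⟨a, ha, hmax⟩ := s.exists_max_image w hne
  have hsa : (s.erase a).card = n := by
    rw [Finset.card_erase_of_mem ha, hcard]
    omega
  set τ : Fin n ≃ ↥(s.erase a) := (Finset.equivFinOfCardEq hsa).symm with hτ
  have hτs : ∀ i, (τ i : Fin n → ℝ) ∈ s := fun i => Finset.mem_of_mem_erase (τ i).2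
  have hτa : ∀ i, (τ i : Fin n → ℝ) ≠ a := fun i => Finset.ne_of_mem_erase (τ i).2
  choose l hl W hW hlW using fun i => hA (τ i) (hτs i) a ha (hτa i)
  have hl0 : ∀ i, (0 : ℝ) < l i := fun i => lt_of_lt_of_le (by linarith) (hl i)
  have htrans : ∀ F : (Fin n → ℝ) → Fin n → ℝ, ∑ b ∈ s, F b = F a + ∑ i, F (τ i) := by
    intro F
    rw [← Finset.add_sum_erase s F ha, Equiv.sum_comp τ (fun b => F b),
      Finset.sum_coe_sort (s.erase a) F]
  have htrans2 : ∀ F : (Fin n → ℝ) → ℝ, ∑ b ∈ s, F b = F a + ∑ i, F (τ i) := by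
    intro F
    rw [← Finset.add_sum_erase s F ha, Equiv.sum_comp τ (fun b => F b),
      Finset.sum_coe_sort (s.erase a) F]
  have hspan : ⊤ ≤ Submodule.span ℝ (Set.range W) := by
    have h1 : vectorSpan ℝ (s : Set (Fin n → ℝ)) = ⊤ :=
      Submodule.eq_top_of_finrank_eq (by rw [Module.finrank_fin_fun]; exact hdim)
    rw [← h1, vectorSpan_eq_span_vsub_set_right ℝ (Finset.mem_coe.2 ha), Submodule.span_le]
    rintro _ ⟨b, hb, rfl⟩
    by_cases hba : b = a
    · subst hba
      simp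
    · obtain ⟨i, hi⟩ := τ.surjective ⟨b, Finset.mem_erase.2 ⟨hba, hb⟩⟩
      have h2 : (τ i : Fin n → ℝ) = b := by rw [hi]
      have h3 := hlW i
      rw [h2] at h3
      change b - a ∈ _
      rw [h3]
      exact Submodule.smul_mem _ _ (Submodule.subset_span ⟨i, rfl⟩)
  have hind : LinearIndependent ℝ W :=
    linearIndependent_of_top_le_span_of_card_eq_finrank hspan (by simp)
  obtain ⟨D, hD, hGD⟩ := exists_denominator hW hind
  have hyexp : (2 : ℝ) • y = (2 * w a) • a + ∑ i, (2 * w (τ i)) • (τ i : Fin n → ℝ) := by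
    rw [← hwy, htrans (fun b => w b • b), smul_add, Finset.smul_sum, smul_smul]
    simp only [smul_smul]
  have hw1' : w a + ∑ i, w (τ i) = 1 := by rw [← htrans2, hw1]
  have hbG : (fun i => (l i : ℝ) * (2 * w (τ i))) ∈ coordGroup W := by
    rw [mem_coordGroup]
    have h1 : ∑ i, ((l i : ℝ) * (2 * w (τ i))) • W i = (2 : ℝ) • y + -((2 : ℕ) : ℝ) • a := by
      have h2 : ∀ i, ((l i : ℝ) * (2 * w (τ i))) • W i =
          (2 * w (τ i)) • (τ i : Fin n → ℝ) - (2 * w (τ i)) • a := by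
        intro i
        rw [← smul_sub, hlW i, smul_smul, mul_comm]
      rw [Finset.sum_congr rfl fun i _ => h2 i, Finset.sum_sub_distrib, hyexp, ← Finset.sum_smul,
        ← Finset.mul_sum]
      have h3 : ∑ i, w (τ i) = 1 - w a := by linarith
      rw [h3]
      have h4 : (2 * w a) • a + ∑ i, (2 * w (τ i)) • (τ i : Fin n → ℝ) + -((2 : ℕ) : ℝ) • a =
          ∑ i, (2 * w (τ i)) • (τ i : Fin n → ℝ) + ((2 * w a) • a + -((2 : ℕ) : ℝ) • a) := by abel
      rw [h4, ← add_smul, sub_eq_add_neg, ← neg_smul]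
      congr 2
      push_cast
      ring
    rw [h1, neg_smul]
    exact lattice_add hyM (lattice_neg (lattice_nsmul (hs a ha) 2))
  have hc : 1 ≤ ((n : ℝ) - 1) * (2 * w a) := by
    have h2 : ∑ b ∈ s, w b ≤ s.card • w a := Finset.sum_le_card_nsmul s w (w a) hmax
    rw [hw1, hcard, nsmul_eq_mul] at h2
    push_cast at h2
    have h3 := hw0 a ha
    nlinarith
  have hsum : ∑ i, ((l i : ℝ) * (2 * w (τ i))) / l i = 2 - 2 * w a := by
    have h2 : ∀ i, ((l i : ℝ) * (2 * w (τ i))) / l i = 2 * w (τ i) := by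
      intro i
      rw [mul_div_cancel_left₀ _ (hl0 i).ne']
    rw [Finset.sum_congr rfl fun i _ => h2 i, ← Finset.mul_sum]
    linarith
  obtain ⟨α, hα, hα0, hα1, hα2, hα3⟩ := split hn (coordGroup W) (int_mem hW) D hD hGD
    (fun i => (l i : ℝ)) hl _ hbG (fun i => mul_nonneg (hl0 i).le
      (mul_nonneg zero_le_two (hw0 _ (hτs i)))) (2 * w a) hc hsum
  have hconv : ∀ (β0 : ℝ) (β : Fin n → ℝ), 0 ≤ β0 → (∀ i, 0 ≤ β i) → β0 + ∑ i, β i = 1 →
      β0 • a + ∑ i, β i • (τ i : Fin n → ℝ) ∈ convexHull ℝ (s : Set (Fin n → ℝ)) := by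
    intro β0 β h0 h1 h2
    have h3 := (convex_convexHull ℝ (s : Set (Fin n → ℝ))).sum_mem (t := Finset.univ)
      (w := fun o : Option (Fin n) => o.elim β0 β)
      (z := fun o : Option (Fin n) => o.elim a (fun i => (τ i : Fin n → ℝ)))
      (fun o _ => by cases o with
        | none => exact h0
        | some i => exact h1 i)
      (by rw [Fintype.sum_option]; exact h2)
      (fun o _ => by cases o with
        | none => exact subset_convexHull ℝ _ ha
        | some i => exact subset_convexHull ℝ _ (hτs i))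
    rw [Fintype.sum_option] at h3
    exact h3
  refine ⟨(1 - ∑ i, α i / l i) • a + ∑ i, (α i / l i) • (τ i : Fin n → ℝ),
    hconv _ _ (by linarith) (fun i => div_nonneg (hα0 i) (hl0 i).le) (by ring), ?_,
    (2 * w a - 1 + ∑ i, α i / l i) • a + ∑ i, (2 * w (τ i) - α i / l i) • (τ i : Fin n → ℝ),
    hconv _ _ (by linarith) (fun i => ?_) ?_, ?_⟩
  · have h1 : (1 - ∑ i, α i / l i) • a + ∑ i, (α i / l i) • (τ i : Fin n → ℝ) =
        a + ∑ i, α i • W i := by
      have h2 : ∀ i, α i • W i = (α i / l i) • (τ i : Fin n → ℝ) - (α i / l i) • a := by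
        intro i
        rw [← smul_sub, hlW i, smul_smul, div_mul_cancel₀ _ (hl0 i).ne']
      rw [Finset.sum_congr rfl fun i _ => h2 i, Finset.sum_sub_distrib, ← Finset.sum_smul, sub_smul,
        one_smul]
      abel
    rw [h1]
    exact lattice_add (hs a ha) hα
  · rw [sub_nonneg, div_le_iff₀ (hl0 i), mul_comm]
    exact hα1 i
  · rw [Finset.sum_sub_distrib, ← Finset.mul_sum]
    linarith
  · rw [hyexp]
    have h1 : ∑ i, (2 * w (τ i) - α i / l i) • (τ i : Fin n → ℝ) =
        ∑ i, (2 * w (τ i)) • (τ i : Fin n → ℝ) - ∑ i, (α i / l i) • (τ i : Fin n → ℝ) := by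
      rw [← Finset.sum_sub_distrib]
      exact Finset.sum_congr rfl fun i _ => sub_smul _ _ _
    rw [h1, add_smul, sub_smul, sub_smul, one_smul]
    abel

end Pool.Agent.J6H7.IC
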